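import Mathlib

/-!
# The abcd equation: prime factors of `p - 4` and `p + 4` for a represented prime `p`

If `p` is a prime represented by the abcd equation, then one may assume `a² + b² = cd`, `c² + d² = p ab`, and
`(c + d)² = (p + 4) ab + 2 (a - b)²`, `(c - d)² = (p + 4) ab - 2 (a + b)²`,
`(c + d)² = (p - 4) ab + 2 (a + b)²`, `(c - d)² = (p - 4) ab - 2 (a - b)²`,
`(p + 4) abcd = (ac + bd)² + (ad + bc)²`, `(p - 4) abcd = (ac - bd)² + (ad - bc)²`.
-/

namespace Pool.Agent.Results.MP_888a4f_nt.PrimeFactors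

/-- `n` is represented by the abcd equation. -/
def Represented (n : ℕ) : Prop :=
  ∃ a b c d : ℕ, 0 < a ∧ 0 < b ∧ 0 < c ∧ 0 < d ∧ Nat.Coprime a b ∧ Nat.Coprime c d ∧
    n * (a * b * c * d) = (a ^ 2 + b ^ 2) * (c ^ 2 + d ^ 2)

/-- primes dividing a primitive sum of two squares are not `3` modulo `4` -/
lemma not_three {q x y : ℕ} (hq : q.Prime) (hc : x.Coprime y) (hd : q ∣ x ^ 2 + y ^ 2) :
    q % 4 ≠ 3 := by
  have h0 : x ^ 2 + y ^ 2 ≠ 0 := by
    intro h
    have hx : x = 0 := by nlinarith [sq_nonneg x, sq_nonneg y, Nat.zero_le (x ^ 2), Nat.zero_le (y ^ 2)]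
    have hy : y = 0 := by nlinarith [sq_nonneg x, sq_nonneg y, Nat.zero_le (x ^ 2), Nat.zero_le (y ^ 2)]
    rw [hx, hy] at hc
    exact absurd hc (by decide)
  exact Nat.mod_four_ne_three_of_mem_primeFactors_of_isSquare_neg_one
    (Nat.mem_primeFactors.mpr ⟨hq, hd, h0⟩)
    (ZMod.isSquare_neg_one_of_eq_sq_add_sq_of_coprime rfl hc)

lemma coprime_sq_add {a b : ℕ} (h : Nat.Coprime a b) : Nat.Coprime (a * b) (a ^ 2 + b ^ 2) := by
  refine Nat.Coprime.mul_left ?_ ?_
  · have h1 : Nat.Coprime a (b ^ 2) := h.pow_right 2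
    have h2 : a ^ 2 + b ^ 2 = b ^ 2 + a * a := by ring
    rw [h2]
    exact (Nat.coprime_add_mul_right_right a (b ^ 2) a).mpr h1
  · have h1 : Nat.Coprime b (a ^ 2) := h.symm.pow_right 2
    have h2 : a ^ 2 + b ^ 2 = a ^ 2 + b * b := by ring
    rw [h2]
    exact (Nat.coprime_add_mul_right_right b (a ^ 2) b).mpr h1

/-- the valuation part -/
lemma even_val {q m N x y : ℕ} (hq : q.Prime) (h4 : q % 4 = 3) (hm : m ≠ 0) (hN : N ≠ 0)
    (hqN : ¬ q ∣ N) (h : m * N = x ^ 2 + y ^ 2) : Even (padicValNat q m) := by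
  have : Fact q.Prime := ⟨hq⟩
  by_cases hqm : q ∣ m
  · have h1 : q ∈ (m * N).primeFactors := by
      rw [Nat.mem_primeFactors]
      exact ⟨hq, Dvd.dvd.mul_right hqm N, mul_ne_zero hm hN⟩
    have h2 := (Nat.eq_sq_add_sq_iff (n := m * N)).mp ⟨x, y, h⟩ q h1 h4
    rw [padicValNat.mul hm hN, padicValNat.eq_zero_of_not_dvd hqN, add_zero] at h2
    exact h2
  · rw [padicValNat.eq_zero_of_not_dvd hqm]
    exact Even.zero

/-- the residue modulo 8 -/
lemma mod_eight {n : ℕ} (hn : n ≠ 0)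
    (h : ∀ q : ℕ, q.Prime → q ∣ n → q % 8 = 1 ∨ (q % 2 = 1 ∧ Even (padicValNat q n))) :
    n % 8 = 1 := by
  have h1 : (n : ZMod 8) = 1 := by
    conv_lhs => rw [← Nat.prod_factorization_pow_eq_self hn]
    rw [Finsupp.prod, Nat.cast_prod]
    refine Finset.prod_eq_one fun q hq => ?_
    have hq' := Nat.support_factorization n ▸ hq
    rw [Nat.mem_primeFactors] at hq'
    rw [Nat.cast_pow]
    rcases h q hq'.1 hq'.2.1 with h8 | ⟨h2, hev⟩
    · have : (q : ZMod 8) = 1 := by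
        have h3 : ((q % 8 : ℕ) : ZMod 8) = (q : ZMod 8) := ZMod.natCast_mod q 8
        rw [← h3, h8]
        rfl
      rw [this, one_pow]
    · rw [← Nat.factorization_def n hq'.1] at hev
      obtain ⟨r, hr⟩ := hev
      rw [hr, ← two_mul, pow_mul]
      have h3 : (q : ZMod 8) ^ 2 = 1 := by
        have h4 : ((q % 8 : ℕ) : ZMod 8) = (q : ZMod 8) := ZMod.natCast_mod q 8
        rw [← h4]
        have h5 : q % 8 = 1 ∨ q % 8 = 3 ∨ q % 8 = 5 ∨ q % 8 = 7 := by omega
        rcases h5 with h5 | h5 | h5 | h5 <;> rw [h5] <;> decide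
      rw [h3, one_pow]
  have h2 : ((n % 8 : ℕ) : ZMod 8) = ((1 : ℕ) : ZMod 8) := by
    rw [ZMod.natCast_mod, h1, Nat.cast_one]
  have h3 := (ZMod.natCast_eq_natCast_iff' (n % 8) 1 8).mp h2
  omega

/-- in a field where neither `2` nor `-2` is a square -/
lemma no_sol {q a b : ℕ} (hq : q.Prime) (h8 : q % 8 = 5) (hab : Nat.Coprime a b) {u v : ZMod q}
    (h1 : u ^ 2 = 2 * ((a : ZMod q) + b) ^ 2) (h2 : v ^ 2 = -2 * ((a : ZMod q) - b) ^ 2) : False := by
  have : Fact q.Prime := ⟨hq⟩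
  have hq2 : q ≠ 2 := by
    rintro rfl
    omega
  have hn2 : ¬ IsSquare (2 : ZMod q) := by
    rw [ZMod.exists_sq_eq_two_iff hq2]
    omega
  have hnn : ¬ IsSquare (-2 : ZMod q) := by
    rw [ZMod.exists_sq_eq_neg_two_iff hq2]
    omega
  have e2 : (a : ZMod q) + b = 0 := by
    by_contra hne
    apply hn2
    refine ⟨u / ((a : ZMod q) + b), ?_⟩
    rw [div_mul_div_comm, eq_div_iff (mul_ne_zero hne hne)]
    linear_combination -h1
  have e1 : (a : ZMod q) - b = 0 := by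
    by_contra hne
    apply hnn
    refine ⟨v / ((a : ZMod q) - b), ?_⟩
    rw [div_mul_div_comm, eq_div_iff (mul_ne_zero hne hne)]
    linear_combination -h2
  have h20 : (2 : ZMod q) ≠ 0 := by
    intro h0
    apply hn2
    rw [h0]
    exact IsSquare.zero
  have ea : (a : ZMod q) = 0 := by
    have : (2 : ZMod q) * a = 0 := by linear_combination e1 + e2
    exact (mul_eq_zero.mp this).resolve_left h20
  have eb : (b : ZMod q) = 0 := by
    rw [ea, zero_add] at e2
    exact e2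
  rw [ZMod.natCast_eq_zero_iff] at ea eb
  exact hq.one_lt.ne' (Nat.dvd_one.mp (hab ▸ Nat.dvd_gcd ea eb))

lemma no_sol' {q a b : ℕ} (hq : q.Prime) (h8 : q % 8 = 5) (hab : Nat.Coprime a b) {u v : ZMod q}
    (h1 : u ^ 2 = 2 * ((a : ZMod q) - b) ^ 2) (h2 : v ^ 2 = -2 * ((a : ZMod q) + b) ^ 2) : False := by
  have : Fact q.Prime := ⟨hq⟩
  have hs : IsSquare (-1 : ZMod q) := by
    rw [ZMod.exists_sq_eq_neg_one_iff]
    omega
  obtain ⟨i, hi⟩ := hs
  refine no_sol hq h8 hab (u := i * v) (v := i * u) ?_ ?_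
  · linear_combination (-(v ^ 2)) * hi - h2
  · linear_combination (-(u ^ 2)) * hi - h1

lemma key {p a b c d : ℕ} (hp : p.Prime) (ha : 0 < a) (hb : 0 < b) (hc : 0 < c) (hd : 0 < d)
    (hab : Nat.Coprime a b) (hcd : Nat.Coprime c d) (h1 : a ^ 2 + b ^ 2 = c * d)
    (h2 : c ^ 2 + d ^ 2 = p * (a * b)) :
    p % 8 = 5 ∧ ∀ q : ℕ, q.Prime → (q ∣ p - 4 ∨ q ∣ p + 4) →
      q % 8 = 1 ∨ (q % 4 = 3 ∧ Even (padicValNat q (p - 4)) ∧ Even (padicValNat q (p + 4))) := by
  have hp2 : p ≠ 2 := by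
    rintro rfl
    have hncd : ¬ (2 ∣ c ∧ 2 ∣ d) := fun h =>
      absurd (Nat.dvd_one.mp (hcd ▸ Nat.dvd_gcd h.1 h.2)) (by norm_num)
    have hsum : (c + d) % 2 = 0 := by
      have e3 : (c + d) * (c + d) = 2 * (a * b + c * d) := by
        have : (c + d) * (c + d) = (c ^ 2 + d ^ 2) + 2 * (c * d) := by ring
        rw [this, h2]
        ring
      have e4 : 2 ∣ (c + d) * (c + d) := ⟨_, e3⟩
      have e5 := (Nat.Prime.dvd_mul Nat.prime_two).mp e4
      omega
    have hc1 : c % 2 = 1 := by omega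
    have hd1 : d % 2 = 1 := by omega
    obtain ⟨c', hc'⟩ : ∃ c', c = 2 * c' + 1 := ⟨c / 2, by omega⟩
    obtain ⟨d', hd'⟩ : ∃ d', d = 2 * d' + 1 := ⟨d / 2, by omega⟩
    -- `c ^ 2 + d ^ 2 = 2 a b` is `2` modulo `4`, so `a b` is odd, and `a ^ 2 + b ^ 2` is even
    have e6 : a * b % 2 = 1 := by
      have e7 : 2 * (a * b) = 4 * (c' ^ 2 + c' + d' ^ 2 + d') + 2 := by
        rw [← h2, hc', hd']
        ring
      omega
    have ha1 : a % 2 = 1 := by
      by_contra hne
      have h3 : a % 2 = 0 := by omega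
      rw [Nat.mul_mod, h3] at e6
      simp at e6
    have hb1 : b % 2 = 1 := by
      by_contra hne
      have h3 : b % 2 = 0 := by omega
      rw [Nat.mul_mod, h3] at e6
      simp at e6
    have e8 : (a ^ 2 + b ^ 2) % 2 = 0 := by
      rw [Nat.add_mod, Nat.pow_mod, ha1, Nat.pow_mod b, hb1]
    have e9 : (c * d) % 2 = 1 := by
      rw [Nat.mul_mod, hc1, hd1]
    rw [h1] at e8
    omega
  have hp4 : p % 4 ≠ 3 := not_three hp hcd ⟨a * b, h2⟩
  have hpodd : p % 2 = 1 := by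
    rcases hp.eq_two_or_odd with h | h
    · exact absurd h hp2
    · exact h
  have hp5 : 5 ≤ p := by
    have := hp.two_le
    by_contra hlt
    interval_cases p <;> omega
  have hN : a * b * (c * d) ≠ 0 := by positivity
  have hqN : ∀ q : ℕ, q.Prime → q % 4 = 3 → ¬ q ∣ a * b * (c * d) := by
    intro q hq h4 hdvd
    rcases (Nat.Prime.dvd_mul hq).mp hdvd with h | h
    · exact not_three hq hcd (h2 ▸ Dvd.dvd.mul_left h p) h4
    · exact not_three hq hab (h1 ▸ h) h4
  have hplus : (p + 4) * (a * b * (c * d)) = (a * c + b * d) ^ 2 + (a * d + b * c) ^ 2 := by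
    have h3 : (p * (a * b)) * (c * d) = (c ^ 2 + d ^ 2) * (a ^ 2 + b ^ 2) := by rw [h1, h2]
    have h4 : (p + 4) * (a * b * (c * d)) = (p * (a * b)) * (c * d) + 4 * (a * b * (c * d)) := by
      ring
    rw [h4, h3]
    ring
  have hminus : (p - 4) * (a * b * (c * d)) =
      ((a : ℤ) * c - b * d).natAbs ^ 2 + ((a : ℤ) * d - b * c).natAbs ^ 2 := by
    zify [show 4 ≤ p by omega]
    rw [sq_abs, sq_abs]
    have e1 : (a : ℤ) ^ 2 + b ^ 2 = c * d := by exact_mod_cast h1
    have e2 : (c : ℤ) ^ 2 + d ^ 2 = p * (a * b) := by exact_mod_cast h2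
    linear_combination (-(p * a * b : ℤ)) * e1 - ((a : ℤ) ^ 2 + b ^ 2) * e2
  have hmain : ∀ q : ℕ, q.Prime → (q ∣ p - 4 ∨ q ∣ p + 4) →
      q % 8 = 1 ∨ (q % 4 = 3 ∧ Even (padicValNat q (p - 4)) ∧ Even (padicValNat q (p + 4))) := by
    intro q hq hdv
    have hqodd : q % 2 = 1 := by
      rcases hq.eq_two_or_odd with h | h
      · subst h
        rcases hdv with h | h <;> omega
      · exact h
    have h4 : q % 8 = 1 ∨ q % 8 = 5 ∨ q % 4 = 3 := by omega
    rcases h4 with h | h | h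
    · exact Or.inl h
    · exfalso
      have e1 : (a : ZMod q) ^ 2 + b ^ 2 = c * d := by exact_mod_cast congrArg (Nat.cast (R := ZMod q)) h1
      have e2 : (c : ZMod q) ^ 2 + d ^ 2 = p * (a * b) := by
        exact_mod_cast congrArg (Nat.cast (R := ZMod q)) h2
      rcases hdv with hd' | hd'
      · have e3 : (p : ZMod q) = 4 := by
          have h5 : ((p - 4 : ℕ) : ZMod q) = 0 := (ZMod.natCast_eq_zero_iff _ _).mpr hd'
          rw [Nat.cast_sub (by omega)] at h5
          push_cast at h5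
          linear_combination h5
        rw [e3] at e2
        -- `p = 4`: `(c + d)² = 2 (a + b)²`, `(c - d)² = - 2 (a - b)²`
        have h5 : ((c : ZMod q) + d) ^ 2 = 2 * ((a : ZMod q) + b) ^ 2 := by
          linear_combination e2 - 2 * e1
        have h6 : ((c : ZMod q) - d) ^ 2 = -2 * ((a : ZMod q) - b) ^ 2 := by
          linear_combination e2 + 2 * e1
        exact no_sol hq h hab h5 h6
      · have e3 : (p : ZMod q) = -4 := by
          have h5 : ((p + 4 : ℕ) : ZMod q) = 0 := (ZMod.natCast_eq_zero_iff _ _).mpr hd'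
          push_cast at h5
          linear_combination h5
        rw [e3] at e2
        -- `p = -4`: `(c + d)² = 2 (a - b)²`, `(c - d)² = - 2 (a + b)²`
        have h5 : ((c : ZMod q) + d) ^ 2 = 2 * ((a : ZMod q) - b) ^ 2 := by
          linear_combination e2 - 2 * e1
        have h6 : ((c : ZMod q) - d) ^ 2 = -2 * ((a : ZMod q) + b) ^ 2 := by
          linear_combination e2 + 2 * e1
        exact no_sol' hq h hab h5 h6
    · exact Or.inr ⟨h, even_val hq h (by omega) hN (hqN q hq h) hminus,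
        even_val hq h (by omega) hN (hqN q hq h) hplus⟩
  refine ⟨?_, hmain⟩
  have h8 : (p + 4) % 8 = 1 := by
    refine mod_eight (by omega) fun q hq hdv => ?_
    rcases hmain q hq (Or.inr hdv) with h | ⟨h, -, h'⟩
    · exact Or.inl h
    · exact Or.inr ⟨by omega, h'⟩
  omega

/-- If a prime `p` is represented by the abcd equation, then `p ≡ 5 (mod 8)`, and every prime divisor `q` of
`p - 4` or `p + 4` is `1` modulo `8`, or it is `3` modulo `4` and divides both `p - 4` and `p + 4` to an even power. -/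
theorem result (p : ℕ) (hp : p.Prime) (h : Represented p) :
    p % 8 = 5 ∧ ∀ q : ℕ, q.Prime → (q ∣ p - 4 ∨ q ∣ p + 4) →
      q % 8 = 1 ∨ (q % 4 = 3 ∧ Even (padicValNat q (p - 4)) ∧ Even (padicValNat q (p + 4))) := by
  obtain ⟨a, b, c, d, ha, hb, hc, hd, hab, hcd, he⟩ := h
  have h1 : a * b ∣ c ^ 2 + d ^ 2 := by
    refine (coprime_sq_add hab).dvd_of_dvd_mul_left ?_
    rw [← he]
    exact ⟨p * (c * d), by ring⟩
  have h2 : c * d ∣ a ^ 2 + b ^ 2 := by
    refine (coprime_sq_add hcd).dvd_of_dvd_mul_right ?_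
    rw [← he]
    exact ⟨p * (a * b), by ring⟩
  obtain ⟨l, hl⟩ := h1
  obtain ⟨k, hk⟩ := h2
  have hkl : p = k * l := by
    have h3 : p * (a * b * c * d) = (k * l) * (a * b * c * d) := by
      rw [he, hl, hk]
      ring
    exact Nat.eq_of_mul_eq_mul_right (by positivity) h3
  have h4 : k = 1 ∨ l = 1 := by
    rw [hkl, Nat.prime_mul_iff] at hp
    rcases hp with h | h
    · exact Or.inr h.2
    · exact Or.inl h.2
  rcases h4 with h | h
  · rw [h, one_mul] at hkl
    rw [h, mul_one] at hk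
    rw [← hkl, mul_comm] at hl
    exact key hp ha hb hc hd hab hcd hk hl
  · rw [h, mul_one] at hkl
    rw [h, mul_one] at hl
    rw [← hkl, mul_comm] at hk
    exact key hp hc hd ha hb hcd hab hl hk

end Pool.Agent.Results.MP_888a4f_nt.PrimeFactors
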